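import Mathlib
import Pool.Agent.H228R4.Blocks

set_option autoImplicit false

namespace Pool.Agent.Results.MP_f451a5_co.Template112233

/-- The template `112233` over the alphabet `[3] = {0, 1, 2}`. -/
def T : Fin 6 → Fin 3 := ![0, 0, 1, 1, 2, 2]

/-- `w` belongs to the block set with template `112233`, blocks `I 0, ..., I 5` and fixed letters
`a` outside of the blocks: `w` agrees with `a` outside of the blocks, it is constant on each block,
and its block values are a rearrangement of `112233`. -/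
def InBlockSet {n : ℕ} (I : Fin 6 → Finset (Fin n)) (a : Fin n → Fin 3) (w : Fin n → Fin 3) :
    Prop :=
  (∀ i, (∀ j, i ∉ I j) → w i = a i) ∧ ∃ σ : Equiv.Perm (Fin 6), ∀ j, ∀ i ∈ I j, w i = T (σ j)

/-- The block sets conjecture holds for the template `112233`, with a degree `d` that does not
depend on the number of colours. -/
theorem result : ∃ d : ℕ, 0 < d ∧ ∀ k : ℕ, 0 < k → ∃ n : ℕ, 0 < n ∧
    ∀ c : (Fin n → Fin 3) → Fin k,
      ∃ (I : Fin 6 → Finset (Fin n)) (a : Fin n → Fin 3),
        (∀ j, (I j).card = d) ∧ (∀ j j', j ≠ j' → Disjoint (I j) (I j')) ∧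
        ∃ col : Fin k, ∀ w, InBlockSet I a w → c w = col := by
  obtain ⟨d, hd, h⟩ := Pool.Agent.H228R4.blocks 3 6 (by norm_num)
  refine ⟨d, hd, fun k hk => ?_⟩
  obtain ⟨n, hn, hc⟩ := h k hk
  refine ⟨n, hn, fun c => ?_⟩
  obtain ⟨I, a, h1, h2, h3⟩ := hc c
  exact ⟨I, a, h1, fun j j' hjj' => h2 hjj', h3 T⟩

end Pool.Agent.Results.MP_f451a5_co.Template112233
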